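import Pool.Agent.P8H64.AN.Stm

/-!
# Project AN (helper64), package ALG (written by helper88)
-/

set_option autoImplicit false

open Finset

namespace Pool.Agent.P8H64.AN

/-- the pairing of two combinations `(T ^ a + T ^ (M - a)) X_r`, `(T ^ a' + T ^ (M - a')) X_s` -/
def pr (F : Fin 3 → Fin 3 → ℤ → ℤ) (d M : ℤ) (r : Fin 3) (a : ℤ) (s : Fin 3) (a' : ℤ) : ℤ :=
  F r s (d + M - a' - a) + F r s (d + M - a' - (M - a)) +
    (F r s (d + M - (M - a') - a) + F r s (d + M - (M - a') - (M - a)))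

section
variable {F : Fin 3 → Fin 3 → ℤ → ℤ} {d : ℤ}

theorem ev (hd : ∀ r s (i : ℤ), F r s (2 * d - i) = F r s i) (r s : Fin 3) (u : ℤ) :
    F r s (d - u) = F r s (d + u) := by
  rw [← hd r s (d + u)]
  congr 1
  ring

theorem pr_eq (hd : ∀ r s (i : ℤ), F r s (2 * d - i) = F r s i) (M : ℤ) (r s : Fin 3) (a a' : ℤ) :
    pr F d M r a s a' = 2 * (F r s (d + (a - a')) + F r s (d + (a + a' - M))) := by
  unfold pr
  have h1 : F r s (d + M - a' - a) = F r s (d + (a + a' - M)) := by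
    rw [← ev hd]; congr 1; ring
  have h2 : F r s (d + M - a' - (M - a)) = F r s (d + (a - a')) := by congr 1; ring
  have h3 : F r s (d + M - (M - a') - a) = F r s (d + (a - a')) := by
    rw [← ev hd]; congr 1; ring
  have h4 : F r s (d + M - (M - a') - (M - a)) = F r s (d + (a + a' - M)) := by congr 1; ring
  rw [h1, h2, h3, h4]
  ring

theorem pr_symm (hs : ∀ r s, F r s = F s r) (hd : ∀ r s (i : ℤ), F r s (2 * d - i) = F r s i)
    (M : ℤ) (r s : Fin 3) (a a' : ℤ) : pr F d M r a s a' = pr F d M s a' r a := by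
  rw [pr_eq hd, pr_eq hd, hs r s, ← ev hd s r (a - a')]
  congr 3
  · ring
  · congr 1; ring

theorem pr_of {M M' a a' b b' c c' : ℤ} (r s : Fin 3) (hM : M = M') (ha : a = c) (ha' : a' = c')
    (hb : b = M' - c) (hb' : b' = M' - c') :
    F r s (d + M - a' - a) + F r s (d + M - a' - b) + (F r s (d + M - b' - a) + F r s (d + M - b' - b)) =
      pr F d M' r c s c' := by
  subst hM ha ha' hb hb'
  rfl

/-- the sum over `k` with palindromic coefficients -/
theorem pr_sum {N : ℕ} {e : ℕ → ℤ} (he : ∀ k, k ≤ N → e (N - k) = e k)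
    (hd : ∀ r s (i : ℤ), F r s (2 * d - i) = F r s i) (j : ℤ) (r s : Fin 3) (a' : ℤ) :
    ∑ k ∈ range (N + 1), e k * pr F d (N + 2 * j) r (k + j) s a' =
      4 * ∑ k ∈ range (N + 1), e k * F r s (d + (k + j - a')) := by
  have h1 : ∑ k ∈ range (N + 1), e k * F r s (d + ((k : ℤ) + j + a' - (N + 2 * j))) =
      ∑ k ∈ range (N + 1), e k * F r s (d + (k + j - a')) := by
    rw [← sum_range_reflect]
    refine sum_congr rfl fun k hk => ?_
    have hk' : k ≤ N := Nat.lt_succ_iff.1 (mem_range.1 hk)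
    have e1 : N + 1 - 1 - k = N - k := by omega
    rw [e1, he k hk', ← ev hd, Nat.cast_sub hk']
    congr 2
    ring
  have h2 : ∀ k ∈ range (N + 1), e k * pr F d (N + 2 * j) r (k + j) s a' =
      2 * (e k * F r s (d + (k + j - a'))) +
        2 * (e k * F r s (d + ((k : ℤ) + j + a' - (N + 2 * j)))) := by
    intro k _
    rw [pr_eq hd]
    ring
  rw [sum_congr rfl h2, sum_add_distrib, ← mul_sum, ← mul_sum, h1]
  ring

end

/-- a linear function of an integral variable which is bounded below is constant -/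
theorem lin_zero {B E : ℤ} (h : ∀ t : ℤ, 0 ≤ 2 * t * B + E) : B = 0 := by
  by_contra hB
  have h1 := h (-(B * (|E| + 1)))
  have h2 : 1 ≤ B ^ 2 := by
    have : 0 < B ^ 2 := by positivity
    omega
  have h3 := le_abs_self E
  have h4 := abs_nonneg E
  nlinarith

theorem quad_expand {A : Type} [Fintype A] (e : A → ℤ) (t E : ℤ) (P00 P01 P10 P11 : A → A → ℤ)
    (P02 P12 P20 P21 : A → ℤ) (h20 : ∀ k, P20 k = P02 k) (h21 : ∀ k, P21 k = P12 k)
    (x : (A ⊕ A) ⊕ Unit → ℤ) (Q : (A ⊕ A) ⊕ Unit → (A ⊕ A) ⊕ Unit → ℤ)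
    (hx0 : ∀ k, x (Sum.inl (Sum.inl k)) = t * e k) (hx1 : ∀ k, x (Sum.inl (Sum.inr k)) = -(t * e k))
    (hx2 : x (Sum.inr ()) = 1)
    (q00 : ∀ k l, Q (Sum.inl (Sum.inl k)) (Sum.inl (Sum.inl l)) = P00 k l)
    (q01 : ∀ k l, Q (Sum.inl (Sum.inl k)) (Sum.inl (Sum.inr l)) = P01 k l)
    (q10 : ∀ k l, Q (Sum.inl (Sum.inr k)) (Sum.inl (Sum.inl l)) = P10 k l)
    (q11 : ∀ k l, Q (Sum.inl (Sum.inr k)) (Sum.inl (Sum.inr l)) = P11 k l)
    (q02 : ∀ k, Q (Sum.inl (Sum.inl k)) (Sum.inr ()) = P02 k)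
    (q12 : ∀ k, Q (Sum.inl (Sum.inr k)) (Sum.inr ()) = P12 k)
    (q20 : ∀ k, Q (Sum.inr ()) (Sum.inl (Sum.inl k)) = P20 k)
    (q21 : ∀ k, Q (Sum.inr ()) (Sum.inl (Sum.inr k)) = P21 k)
    (q22 : Q (Sum.inr ()) (Sum.inr ()) = E) :
    ∑ p, ∑ p', x p * x p' * Q p p' =
      t ^ 2 * ∑ l, e l * (∑ k, e k * P00 k l - ∑ k, e k * P01 k l - ∑ k, e k * P10 k l +
        ∑ k, e k * P11 k l) + 2 * t * (∑ k, e k * P02 k - ∑ k, e k * P12 k) + E := by
  simp only [Fintype.sum_sum_type, Fintype.sum_unique, hx0, hx1, q00, q01, q10, q11, q02, q12,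
    q20, q21, q22, h20, h21, PUnit.default_eq_unit, hx2]
  have hA : t ^ 2 * ∑ l, e l * (∑ k, e k * P00 k l - ∑ k, e k * P01 k l - ∑ k, e k * P10 k l +
        ∑ k, e k * P11 k l) = ∑ k, ∑ l, (t * e k * (t * e l) * P00 k l + t * e k * -(t * e l) * P01 k l +
          -(t * e k) * (t * e l) * P10 k l + -(t * e k) * -(t * e l) * P11 k l) := by
    rw [sum_comm, mul_sum]
    refine sum_congr rfl fun l _ => ?_
    rw [← sum_sub_distrib, ← sum_sub_distrib, ← sum_add_distrib, mul_sum, mul_sum]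
    refine sum_congr rfl fun k _ => ?_
    ring
  have hB : 2 * t * (∑ k, e k * P02 k - ∑ k, e k * P12 k) =
      ∑ k, (t * e k * 1 * P02 k + -(t * e k) * 1 * P12 k + 1 * (t * e k) * P02 k +
        1 * -(t * e k) * P12 k) := by
    rw [← sum_sub_distrib, mul_sum]
    refine sum_congr rfl fun k _ => ?_
    ring
  rw [hA, hB]
  simp only [sum_add_distrib]
  ring

theorem alg : S_ALG := by
  intro d N e F hpal hne hsymm hrefl hvan hpos hiso
  have hd : ∀ r s (i : ℤ), F r s (2 * (d : ℤ) - i) = F r s i := hrefl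
  -- the linear relations
  have key : ∀ s : ℤ, ∑ k ∈ range (N + 1), e k *
      (F 2 0 ((d : ℤ) + (k + s)) - F 2 1 ((d : ℤ) + (k + s))) = 0 := by
    intro s
    obtain ⟨j', κ', hjκ, hκ⟩ : ∃ j' κ' : ℕ, (j' : ℤ) - κ' = s ∧ κ' ≤ N + 2 * j' := by
      refine ⟨s.natAbs, ((s.natAbs : ℤ) - s).toNat, ?_, ?_⟩ <;> omega
    have hquad : ∀ t : ℤ, 0 ≤ 2 * t * (∑ k : Fin (N + 1), e k * pr F d (N + 2 * (j' + 1)) 0 (k + (j' + 1)) 2 (κ' + 1) -
        ∑ k : Fin (N + 1), e k * pr F d (N + 2 * (j' + 1)) 1 (k + (j' + 1)) 2 (κ' + 1)) +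
        pr F d (N + 2 * (j' + 1)) 2 (κ' + 1) 2 (κ' + 1) := by
      intro t
      have h1 := hpos (N + 2 * (j' + 1)) ((Fin (N + 1) ⊕ Fin (N + 1)) ⊕ Unit)
        (Sum.elim (Sum.elim (fun _ => 0) (fun _ => 1)) (fun _ => 2))
        (Sum.elim (Sum.elim (fun k => k + j') (fun k => k + j')) (fun _ => κ'))
        (Sum.elim (Sum.elim (fun k => N - k + j') (fun k => N - k + j')) (fun _ => N + 2 * j' - κ'))
        (by
          rintro ((k | k) | k) <;> simp only [Sum.elim_inl, Sum.elim_inr] <;> omega)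
        (Sum.elim (Sum.elim (fun k => t * e k) (fun k => -(t * e k))) (fun _ => 1))
      have hα : ∀ p : (Fin (N + 1) ⊕ Fin (N + 1)) ⊕ Unit,
          ((Sum.elim (Sum.elim (fun k : Fin (N + 1) => (k : ℕ) + j') (fun k : Fin (N + 1) => (k : ℕ) + j'))
            (fun _ => κ') p : ℕ) : ℤ) + 1 =
          Sum.elim (Sum.elim (fun k : Fin (N + 1) => ((k : ℕ) : ℤ) + (j' + 1))
            (fun k : Fin (N + 1) => ((k : ℕ) : ℤ) + (j' + 1))) (fun _ => (κ' : ℤ) + 1) p := by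
        rintro ((k | k) | k) <;> simp only [Sum.elim_inl, Sum.elim_inr] <;> push_cast <;> ring
      have hβ : ∀ p : (Fin (N + 1) ⊕ Fin (N + 1)) ⊕ Unit,
          ((Sum.elim (Sum.elim (fun k : Fin (N + 1) => N - (k : ℕ) + j')
            (fun k : Fin (N + 1) => N - (k : ℕ) + j')) (fun _ => N + 2 * j' - κ') p : ℕ) : ℤ) + 1 =
          (N : ℤ) + 2 * (j' + 1) - Sum.elim (Sum.elim (fun k : Fin (N + 1) => ((k : ℕ) : ℤ) + (j' + 1))
            (fun k : Fin (N + 1) => ((k : ℕ) : ℤ) + (j' + 1))) (fun _ => (κ' : ℤ) + 1) p := by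
        rintro ((k | k) | k) <;> simp only [Sum.elim_inl, Sum.elim_inr]
        · have := k.2; omega
        · have := k.2; omega
        · omega
      have h2 := quad_expand (A := Fin (N + 1)) (fun k => e k) t
        (pr F d (N + 2 * (j' + 1)) 2 (κ' + 1) 2 (κ' + 1))
        (fun k l => pr F d (N + 2 * (j' + 1)) 0 (k + (j' + 1)) 0 (l + (j' + 1)))
        (fun k l => pr F d (N + 2 * (j' + 1)) 0 (k + (j' + 1)) 1 (l + (j' + 1)))
        (fun k l => pr F d (N + 2 * (j' + 1)) 1 (k + (j' + 1)) 0 (l + (j' + 1)))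
        (fun k l => pr F d (N + 2 * (j' + 1)) 1 (k + (j' + 1)) 1 (l + (j' + 1)))
        (fun k => pr F d (N + 2 * (j' + 1)) 0 (k + (j' + 1)) 2 (κ' + 1))
        (fun k => pr F d (N + 2 * (j' + 1)) 1 (k + (j' + 1)) 2 (κ' + 1))
        (fun k => pr F d (N + 2 * (j' + 1)) 2 (κ' + 1) 0 (k + (j' + 1)))
        (fun k => pr F d (N + 2 * (j' + 1)) 2 (κ' + 1) 1 (k + (j' + 1)))
        (fun k => pr_symm hsymm hd _ _ _ _ _) (fun k => pr_symm hsymm hd _ _ _ _ _)
        (Sum.elim (Sum.elim (fun k => t * e k) (fun k => -(t * e k))) (fun _ => 1))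
        (fun p p' => pr F d (N + 2 * (j' + 1))
          (Sum.elim (Sum.elim (fun _ => 0) (fun _ => 1)) (fun _ => 2) p)
          (Sum.elim (Sum.elim (fun k : Fin (N + 1) => ((k : ℕ) : ℤ) + (j' + 1)) (fun k : Fin (N + 1) => ((k : ℕ) : ℤ) + (j' + 1)))
            (fun _ => (κ' : ℤ) + 1) p)
          (Sum.elim (Sum.elim (fun _ => 0) (fun _ => 1)) (fun _ => 2) p')
          (Sum.elim (Sum.elim (fun k : Fin (N + 1) => ((k : ℕ) : ℤ) + (j' + 1)) (fun k : Fin (N + 1) => ((k : ℕ) : ℤ) + (j' + 1)))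
            (fun _ => (κ' : ℤ) + 1) p'))
        (fun _ => rfl) (fun _ => rfl) rfl (fun _ _ => rfl) (fun _ _ => rfl) (fun _ _ => rfl)
        (fun _ _ => rfl) (fun _ => rfl) (fun _ => rfl) (fun _ => rfl) (fun _ => rfl) rfl
      have h3 : ∑ l : Fin (N + 1), e l * (∑ k : Fin (N + 1), e k * pr F d (N + 2 * (j' + 1)) 0 (k + (j' + 1)) 0 (l + (j' + 1)) -
          ∑ k : Fin (N + 1), e k * pr F d (N + 2 * (j' + 1)) 0 (k + (j' + 1)) 1 (l + (j' + 1)) -
          ∑ k : Fin (N + 1), e k * pr F d (N + 2 * (j' + 1)) 1 (k + (j' + 1)) 0 (l + (j' + 1)) +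
          ∑ k : Fin (N + 1), e k * pr F d (N + 2 * (j' + 1)) 1 (k + (j' + 1)) 1 (l + (j' + 1))) = 0 := by
        refine sum_eq_zero fun l _ => ?_
        rw [Fin.sum_univ_eq_sum_range (fun k => e k * pr F d (N + 2 * (j' + 1)) 0 ((k : ℤ) + (j' + 1)) 0 (l + (j' + 1))) (N + 1),
          Fin.sum_univ_eq_sum_range (fun k => e k * pr F d (N + 2 * (j' + 1)) 0 ((k : ℤ) + (j' + 1)) 1 (l + (j' + 1))) (N + 1),
          Fin.sum_univ_eq_sum_range (fun k => e k * pr F d (N + 2 * (j' + 1)) 1 ((k : ℤ) + (j' + 1)) 0 (l + (j' + 1))) (N + 1),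
          Fin.sum_univ_eq_sum_range (fun k => e k * pr F d (N + 2 * (j' + 1)) 1 ((k : ℤ) + (j' + 1)) 1 (l + (j' + 1))) (N + 1),
          pr_sum hpal hd, pr_sum hpal hd, pr_sum hpal hd, pr_sum hpal hd, hsymm 1 0]
        have h4 := hiso l (Nat.lt_succ_iff.1 l.2)
        have h5 : ∀ r s : Fin 3, ∑ k ∈ range (N + 1), e k * F r s ((d : ℤ) + ((k : ℤ) + (j' + 1) - (l + (j' + 1)))) =
            ∑ k ∈ range (N + 1), e k * F r s ((d : ℤ) + k - l) := by
          intro r s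
          refine sum_congr rfl fun k _ => ?_
          congr 2
          ring
        rw [h5, h5, h5]
        have h6 : ∑ k ∈ range (N + 1), e k *
            (F 0 0 ((d : ℤ) + k - l) + F 1 1 ((d : ℤ) + k - l) - 2 * F 0 1 ((d : ℤ) + k - l)) =
            ∑ k ∈ range (N + 1), e k * F 0 0 ((d : ℤ) + k - l) +
            ∑ k ∈ range (N + 1), e k * F 1 1 ((d : ℤ) + k - l) -
            2 * ∑ k ∈ range (N + 1), e k * F 0 1 ((d : ℤ) + k - l) := by
          rw [mul_sum, ← sum_add_distrib, ← sum_sub_distrib]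
          refine sum_congr rfl fun k _ => ?_
          ring
        rw [h6] at h4
        rw [show ∀ a b c : ℤ, e l * (4 * a - 4 * b - 4 * b + 4 * c) = 4 * e l * (a + c - 2 * b) from
          fun a b c => by ring, h4, mul_zero]
      rw [h3, mul_zero, zero_add] at h2
      rw [← h2]
      refine h1.trans_eq ?_
      refine sum_congr rfl fun p _ => sum_congr rfl fun p' _ => ?_
      congr 1
      exact pr_of _ _ (by push_cast; ring) (hα p) (hα p') (hβ p) (hβ p')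
    have hB := lin_zero hquad
    rw [Fin.sum_univ_eq_sum_range (fun k => e k * pr F d (N + 2 * (j' + 1)) 0 ((k : ℤ) + (j' + 1)) 2 (κ' + 1)) (N + 1),
      Fin.sum_univ_eq_sum_range (fun k => e k * pr F d (N + 2 * (j' + 1)) 1 ((k : ℤ) + (j' + 1)) 2 (κ' + 1)) (N + 1),
      pr_sum hpal hd, pr_sum hpal hd] at hB
    have h7 : ∑ k ∈ range (N + 1), e k * F 0 2 ((d : ℤ) + ((k : ℤ) + (j' + 1) - (κ' + 1))) -
        ∑ k ∈ range (N + 1), e k * F 1 2 ((d : ℤ) + ((k : ℤ) + (j' + 1) - (κ' + 1))) = 0 := by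
      linarith
    rw [← h7, ← sum_sub_distrib]
    refine sum_congr rfl fun k _ => ?_
    rw [hsymm 2 0, hsymm 2 1, ← mul_sub]
    congr 3
    · congr 1; rw [← hjκ]; ring
    · congr 1; rw [← hjκ]; ring
  -- the top coefficient
  by_contra hcon
  push Not at hcon
  obtain ⟨i, hi⟩ := hcon
  obtain ⟨y, hy, hmax⟩ := Int.exists_greatest_of_bdd (P := fun y => F 2 0 y ≠ F 2 1 y)
    ⟨2 * (d : ℤ), fun z hz => by
      by_contra h
      push Not at h
      exact hz (by rw [hvan 2 0 z h, hvan 2 1 z h])⟩ ⟨i, hi⟩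
  classical
  have hex : ∃ k, e k ≠ 0 := by
    obtain ⟨k, _, hk⟩ := hne
    exact ⟨k, hk⟩
  have hk0 := Nat.find_spec hex
  have hkmin := fun m => @Nat.find_min _ _ hex m
  set k₀ := Nat.find hex with hk₀
  have hk0N : k₀ ≤ N := by
    obtain ⟨k, hk, hk'⟩ := hne
    exact (Nat.find_min' hex hk').trans hk
  have h1 := key (y - d - k₀)
  rw [sum_eq_single k₀] at h1
  · rw [show (d : ℤ) + ((k₀ : ℤ) + (y - d - k₀)) = y by ring] at h1
    exact (mul_ne_zero hk0 (sub_ne_zero.2 hy)) h1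
  · intro k _ hk
    rcases lt_or_gt_of_ne hk with hlt | hgt
    · have := hkmin k hlt
      simp only [ne_eq, not_not] at this
      rw [this, zero_mul]
    · have h2 : F 2 0 ((d : ℤ) + (k + (y - d - k₀))) = F 2 1 ((d : ℤ) + (k + (y - d - k₀))) := by
        by_contra h3
        have h4 := hmax _ h3
        have h5 : (k₀ : ℤ) < k := by exact_mod_cast hgt
        linarith
      rw [h2, sub_self, mul_zero]
  · intro h2
    exact absurd (mem_range.2 (Nat.lt_succ_of_le hk0N)) h2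

end Pool.Agent.P8H64.AN
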