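import Pool.Agent.P8H64.AC.Defs

/-!
# All or nothing: linear combinations
-/

set_option autoImplicit false

open Finset

universe u

namespace Pool.Agent.P8H64.AN

open Pool.Agent.H914 Pool.Agent.H914.VarClass

variable {k : Type u} [Field k] {𝒱 : VarClass k}

/-- The linear combination `∑ c(i) φ_i(Z)`, `0 ≤ i ≤ D`, of the numbers `φ_i(Z) = φ Z i` of a variety
`Z` of dimension `D`. -/
def comb (φ : 𝒱.Obj → ℕ → ℤ) (c : ℕ → ℝ) (D : ℕ) (Z : 𝒱.Obj) : ℝ :=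
  ∑ i ∈ range (D + 1), c i * φ Z i

/-- Only the numbers `φ_i` with `d ≤ i ≤ D - d` occur in the linear combination. -/
def IsDeep (c : ℕ → ℝ) (d D : ℕ) : Prop := ∀ i, c i ≠ 0 → d ≤ i ∧ d + i ≤ D

/-- The linear combination is not identically zero in view of `φ_i = φ_(D - i)`. -/
def IsNontrivial (c : ℕ → ℝ) (D : ℕ) : Prop := ∃ i, i ≤ D ∧ c i + c (D - i) ≠ 0

/-- The linear combination is invariant under the relation `R` in dimension `D`. -/
def IsInvariant (R : 𝒱.Obj → 𝒱.Obj → Prop) (φ : 𝒱.Obj → ℕ → ℤ) (c : ℕ → ℝ) (D : ℕ) : Prop :=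
  ∀ Z W : 𝒱.Obj, R Z W → Z.dim = D → comb φ c D Z = comb φ c D W

/-- The linear combination is almost invariant under the relation `R` in dimension `D`: the error
is small in comparison with the sum of the `|φ_i|`. -/
def IsAlmostInvariant (R : 𝒱.Obj → 𝒱.Obj → Prop) (φ : 𝒱.Obj → ℕ → ℤ) (c : ℕ → ℝ) (D : ℕ) : Prop :=
  ∀ ε : ℝ, 0 < ε → ∃ B : ℝ, ∀ Z W : 𝒱.Obj, R Z W → Z.dim = D →
    |comb φ c D Z - comb φ c D W| ≤ ε * ∑ i ∈ range (D + 1), |(φ Z i : ℝ)| + B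

end Pool.Agent.P8H64.AN
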