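import Mathlib

/-!
# Project AN (all or nothing for linear combinations of ranks): algebra packages

Deliver `theorem alg : S_ALG` in `Pool/Agent/P8H64/AN/Alg.lean` and `theorem zalg : S_ZALG` in
`Pool/Agent/P8H64/AN/Zalg.lean` (both need Mathlib only).
-/

set_option autoImplicit false

open Finset

universe w

namespace Pool.Agent.P8H64.AN

/-- **ALG**. Here `F r s` (`r, s = 0, 1, 2`, for `X`, `Y`, `Z`) are the functions `i ↦ ρ_i(X_r × X_s)`,
`X_r` of dimension `d`, and `e k`, `0 ≤ k ≤ N`, are palindromic coefficients, not all zero. The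
hypothesis `hpos` is the positivity of the form on the combinations of the
`(T ^ (α + 1) + T ^ (β + 1)) X_r`, `α + β + 2 = M`. Then from `hiso`, for `x = X - Y`, one gets
`⟨Z, T ^ j X⟩ = ⟨Z, T ^ j Y⟩`.

Proof. Let `g = F 0 0 + F 1 1 - 2 F 0 1`, `h = F 2 0 - F 2 1`; both are symmetric about `d` and
vanish above `2 d`. Let `j ≥ 1`, `M = N + 2 j`, `1 ≤ κ ≤ M - 1`. Apply `hpos` to the family: for
`k = 0, …, N` the variety `X` (index `0`) with `α + 1 = k + j`, `β + 1 = M - k - j` and the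
coefficient `t e(k)`, the variety `Y` (index `1`) with the same `α`, `β` and the coefficient
`- t e(k)`, and `Z` with `α + 1 = κ`, `β + 1 = M - κ` and the coefficient `1`. The result is
`t ^ 2 A + 2 t B + E ≥ 0` for all integers `t`, where
`A = ∑_{k,l} e(k) e(l) (g(d + M - (k+j) - (l+j)) + g(d - k + l) + g(d + k - l) + g(d - M + (k+j) + (l+j)))`,
which is `4 ∑_{k,l} e(k) e(l) g(d + k - l)` by the symmetries `e(N - k) = e(k)` and
`g(2d - i) = g(i)`, hence zero by `hiso`; so `B = 0`, and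
`B = ∑_k e(k) (h(d + M - κ - k - j) + h(d - κ + k + j) + h(d + κ - k - j) + h(d - M + κ + k + j))
= 4 ∑_k e(k) h(d + k + s)`, `s = j - κ`, again by the symmetries. Here `s` is any integer (take `j`
large, `κ = j - s`). If `h ≠ 0` let `y` be the greatest integer with `h(y) ≠ 0` and `k₀` the least `k`
with `e(k) ≠ 0`; for `s = y - d - k₀` the sum is `e(k₀) h(y) ≠ 0`, a contradiction. -/
def S_ALG : Prop := ∀ (d N : ℕ) (e : ℕ → ℤ) (F : Fin 3 → Fin 3 → ℤ → ℤ),
  (∀ k, k ≤ N → e (N - k) = e k) → (∃ k, k ≤ N ∧ e k ≠ 0) →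
  (∀ r s, F r s = F s r) → (∀ r s (i : ℤ), F r s (2 * d - i) = F r s i) →
  (∀ r s (i : ℤ), 2 * d < i → F r s i = 0) →
  (∀ (M : ℕ) (ι : Type) [Fintype ι] (x : ι → Fin 3) (α β : ι → ℕ), (∀ r, α r + β r + 2 = M) →
    ∀ t : ι → ℤ, 0 ≤ ∑ r, ∑ s, t r * t s *
      (F (x r) (x s) (d + M - (α s + 1) - (α r + 1)) + F (x r) (x s) (d + M - (α s + 1) - (β r + 1)) +
        (F (x r) (x s) (d + M - (β s + 1) - (α r + 1)) +
          F (x r) (x s) (d + M - (β s + 1) - (β r + 1))))) →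
  (∀ l : ℕ, l ≤ N → ∑ k ∈ range (N + 1), e k *
    (F 0 0 ((d : ℤ) + k - l) + F 1 1 ((d : ℤ) + k - l) - 2 * F 0 1 ((d : ℤ) + k - l)) = 0) →
  ∀ i : ℤ, F 2 0 i = F 2 1 i

/-- **ZALG**. `x` is an integral function with finite support on a field, zero at zero, `q` an element
of infinite order, `e k`, `0 ≤ k ≤ N`, coefficients, not all zero. The hypothesis says that
`y(α) = ∑ e(k) x(q ^ k α)` has norm zero: multiply by `e l` and sum over `l`:
`∑_{k,l} e(k) e(l) ∑_α x(α) x(q ^ (l - k) α) = ∑_{k,l} e(k) e(l) ∑_α x(q ^ k α) x(q ^ l α) = ∑_α y(α) ^ 2`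
(finite sums; substitute `q ^ k α` for `α`). So `y = 0`. If `x(α) ≠ 0`, let `n ∈ ℤ` be the greatest
with `x(q ^ n α) ≠ 0` (the support is finite and the `q ^ n α` are pairwise different) and `k₀` the
least `k` with `e(k) ≠ 0`: then `y(q ^ (n - k₀) α) = e(k₀) x(q ^ n α) ≠ 0`. -/
def S_ZALG : Prop := ∀ (K : Type w) [Field K] (q : K), q ≠ 0 → (∀ n : ℤ, n ≠ 0 → q ^ n ≠ 1) →
  ∀ (N : ℕ) (e : ℕ → ℤ) (x : K →₀ ℤ), x 0 = 0 → (∃ k, k ≤ N ∧ e k ≠ 0) →
  (∀ l : ℕ, l ≤ N → ∑ k ∈ range (N + 1), e k *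
    (x.sum fun α a => a * x (q ^ ((l : ℤ) - k) * α)) = 0) → x = 0

end Pool.Agent.P8H64.AN
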