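import Pool.Agent.P8H64.AC.Every
import Pool.Agent.P8H64.AN.Stm

/-!
# All or nothing: the form on families, linear combinations of ranks
-/

set_option autoImplicit false

open CategoryTheory AlgebraicGeometry Module Finset

universe u v w

namespace Pool.Agent.P8H64.AN

open Pool.Agent.H914 Pool.Agent.H914.VarClass Pool.Agent.H914.VarClass.Obj Pool.Agent.W492.BB
  Pool.Agent.W550.Corr Pool.Agent.TH133 Pool.Agent.TH829.Prime Pool.Agent.TH829.Kim
  Pool.Agent.P8H64.OO Pool.Agent.P8H64.AC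

variable {k : Type u} [Field k] {𝒱 : VarClass k} {C : TheoryData.{u, v, 0} 𝒱 ℚ}
  [hC : IsChowProj C] [hN : NZ C] {P : ℕ → 𝒱.Obj}

/-- The bilinear expansion. -/
lemma expand {ι : Type} [Fintype ι] (G : ι × Fin 3 → ι × Fin 3 → ℤ) (τ : ι → ℤ) (κ : Fin 3 → ℤ) :
    ∑ i, ∑ j, (τ i.1 * κ i.2) * (τ j.1 * κ j.2) * G i j =
      ∑ r, ∑ s, τ r * τ s * ∑ p, ∑ q, κ p * κ q * G (r, p) (s, q) := by
  rw [Fintype.sum_prod_type]
  refine Finset.sum_congr rfl fun r _ => ?_
  have h1 : ∀ p, ∑ j : ι × Fin 3, τ r * κ p * (τ j.1 * κ j.2) * G (r, p) j =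
      ∑ s, ∑ q, τ r * κ p * (τ s * κ q) * G (r, p) (s, q) := fun p => Fintype.sum_prod_type _
  rw [Finset.sum_congr rfl fun p _ => h1 p, Finset.sum_comm]
  refine Finset.sum_congr rfl fun s _ => ?_
  rw [Finset.mul_sum]
  refine Finset.sum_congr rfl fun p _ => ?_
  rw [Finset.mul_sum]
  exact Finset.sum_congr rfl fun q _ => by ring

/-- Linear combinations of `sop`. -/
lemma sop_lin (D n : ℕ) (c : ℕ → ℤ) (f : ℤ → ℤ) (x : ℤ) :
    sop n (fun y => ∑ i ∈ range (D + 1), c i * f (i + y)) x =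
      ∑ i ∈ range (D + 1), c i * sop n f (i + x) := by
  unfold sop
  rw [sum_comm]
  refine sum_congr rfl fun i _ => ?_
  rw [mul_sum]
  refine sum_congr rfl fun s _ => ?_
  congr 2
  ring

/-- The support. -/
lemma sum_supp {d N : ℕ} {c : ℕ → ℤ} (hc : ∀ i, c i ≠ 0 → d ≤ i ∧ d + i ≤ 2 * d + N)
    (G : ℕ → ℤ) : ∑ i ∈ range (2 * d + N + 1), c i * G i =
      ∑ k ∈ range (N + 1), c (d + k) * G (d + k) := by
  rw [show 2 * d + N + 1 = d + ((N + 1) + d) by ring, Finset.sum_range_add, Finset.sum_range_add]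
  have h1 : ∑ x ∈ range d, c x * G x = 0 := by
    refine sum_eq_zero fun x hx => ?_
    by_contra h
    have := hc x (left_ne_zero_of_mul h)
    have := mem_range.1 hx
    omega
  have h2 : ∑ x ∈ range d, c (d + (N + 1 + x)) * G (d + (N + 1 + x)) = 0 := by
    refine sum_eq_zero fun x hx => ?_
    by_contra h
    have := hc _ (left_ne_zero_of_mul h)
    omega
  rw [h1, h2, zero_add, add_zero]

/-- The equations for the ranks give the equations of `S_ALG`. -/
lemma iso_of_sums {d N : ℕ} {c : ℕ → ℤ} (hc : ∀ i, c i ≠ 0 → d ≤ i ∧ d + i ≤ 2 * d + N)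
    (f : ℤ → ℤ) (hf : ∀ i, f (2 * d - i) = f i)
    (h : ∀ a b : ℕ, a + b = N → ∑ i ∈ range (2 * d + N + 1), c i * sop b (sop a f) i = 0)
    {l : ℕ} (hl : l ≤ N) :
    ∑ k ∈ range (N + 1), (c (d + k) + c (d + (N - k))) * f ((d : ℤ) + k - l) = 0 := by
  have h1 := sop_comb l (N - l) (fun y => ∑ i ∈ range (2 * d + N + 1), c i * f (i + y)) 0
    fun a b hab => by
      have e : sop a (fun y => ∑ i ∈ range (2 * d + N + 1), c i * f (i + y)) =
          fun y => ∑ i ∈ range (2 * d + N + 1), c i * sop a f (i + y) :=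
        funext fun y => sop_lin _ _ _ _ _
      rw [e, sop_lin]
      simpa using h a b (by omega)
  simp only [zero_sub] at h1
  rw [sum_supp hc fun i => f (i + -(l : ℤ)), sum_supp hc fun i => f (i + -((N - l : ℕ) : ℤ)),
    ← Finset.sum_flip fun k => c (d + k) * f (((d + k : ℕ) : ℤ) + -((N - l : ℕ) : ℤ))] at h1
  rw [← h1, ← sum_add_distrib]
  refine sum_congr rfl fun k hk => ?_
  have hk : k ≤ N := Nat.lt_succ_iff.1 (mem_range.1 hk)
  have e1 : f (((d + (N - k) : ℕ) : ℤ) + -((N - l : ℕ) : ℤ)) = f ((d : ℤ) + k - l) := by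
    rw [← hf]
    congr 1
    push_cast [Nat.cast_sub hk, Nat.cast_sub hl]
    ring
  have e2 : f (((d + k : ℕ) : ℤ) + -(l : ℤ)) = f ((d : ℤ) + k - l) := by
    congr 1
  rw [e1, e2, add_mul]

section main

variable (hpos : S_POS.{u + 1, v}) (hcel : S_CEL.{u, v}) (hasc : S_ASC.{u, v})
  (hreg : IsRegular C) (hfin : IsFin C) (hP : Spaces C P)

include hpos hcel hasc hreg hfin hP

/-- The positivity of the form on the combinations of the `(T ^ (α + 1) + T ^ (β + 1)) X`. -/
lemma pos_family {d M : ℕ} {ι : Type} [Fintype ι] (V : ι → 𝒱.Obj) (hV : ∀ r, (V r).dim = d)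
    (α β : ι → ℕ) (hαβ : ∀ r, α r + β r + 2 = M) (t : ι → ℤ) :
    0 ≤ ∑ r, ∑ s, t r * t s *
      (ff C (V r) (V s) (d + M - (α s + 1) - (α r + 1)) +
          ff C (V r) (V s) (d + M - (α s + 1) - (β r + 1)) +
        (ff C (V r) (V s) (d + M - (β s + 1) - (α r + 1)) +
          ff C (V r) (V s) (d + M - (β s + 1) - (β r + 1)))) := by
  have hdim : ∀ i : ι × Fin 3, (AA P (V i.1) (ia (α i.1) i.2) (ib (β i.1) i.2)).dim = d + M := by
    rintro ⟨r, p⟩
    have h2 := hαβ r
    have h3 := ia_add_ib (α r) (β r) p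
    simp only [AA, dim_prod, (hP.proj _).1, hV]
    omega
  have h1 := pos_num hpos hreg hfin (d + M) (ι × Fin 3)
    (fun i => AA P (V i.1) (ia (α i.1) i.2) (ib (β i.1) i.2)) hdim
    (fun i => t i.1 * kap i.2)
  rw [expand (fun i j => ff C (AA P (V i.1) (ia (α i.1) i.2) (ib (β i.1) i.2))
    (AA P (V j.1) (ia (α j.1) j.2) (ib (β j.1) j.2)) ((d + M : ℕ) : ℤ))] at h1
  refine h1.trans_eq (Finset.sum_congr rfl fun r _ => Finset.sum_congr rfl fun s _ => ?_)
  have h2 := kap_sum₂ (α r) (β r) (α s) (β s) (ff C (V r) (V s)) ((d : ℤ) + M)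
  rw [← h2]
  simp only [ff_AA hcel hasc hfin hP]
  push_cast
  rfl

variable (halg : S_ALG) (hcore : S_CORE.{u + 1, v}) (hdual : S_DUAL.{u, v})

include halg hcore hdual

/-- If a linear combination of the ranks does not distinguish the products of `X × X`, `X × Y` and
`Y × Y` with two projective spaces then the numerical motives are isomorphic. -/
theorem numIso_of_comb {X Y : 𝒱.Obj} {d N : ℕ} (hX : X.dim = d) (hY : Y.dim = d) (c : ℕ → ℤ)
    (hc : ∀ i, c i ≠ 0 → d ≤ i ∧ d + i ≤ 2 * d + N)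
    (hnz : ∃ k, k ≤ N ∧ c (d + k) + c (d + (N - k)) ≠ 0)
    (h1 : ∀ a b : ℕ, a + b = N → ∑ i ∈ range (2 * d + N + 1), c i * sop b (sop a (ff C X X)) i =
      ∑ i ∈ range (2 * d + N + 1), c i * sop b (sop a (ff C X Y)) i)
    (h2 : ∀ a b : ℕ, a + b = N → ∑ i ∈ range (2 * d + N + 1), c i * sop b (sop a (ff C X Y)) i =
      ∑ i ∈ range (2 * d + N + 1), c i * sop b (sop a (ff C Y Y)) i) : NumIso C X Y := by
  have hdu : ∀ U W : 𝒱.Obj, U.dim = d → W.dim = d → ∀ i : ℤ,
      ff C U W (2 * d - i) = ff C U W i := fun U W hU hW i =>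
    ff_dual hdual hfin hU hW (by ring)
  have step : ∀ f g : ℤ → ℤ, (∀ i, f (2 * d - i) = f i) → (∀ i, g (2 * d - i) = g i) →
      (∀ a b : ℕ, a + b = N → ∑ i ∈ range (2 * d + N + 1), c i * sop b (sop a f) i =
        ∑ i ∈ range (2 * d + N + 1), c i * sop b (sop a g) i) → ∀ l : ℕ, l ≤ N →
      ∑ k ∈ range (N + 1), (c (d + k) + c (d + (N - k))) * f ((d : ℤ) + k - l) =
        ∑ k ∈ range (N + 1), (c (d + k) + c (d + (N - k))) * g ((d : ℤ) + k - l) := by
    intro f g hf hg h l hl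
    have := iso_of_sums hc (fun i => f i - g i) (fun i => by rw [hf, hg]) (fun a b hab => by
      have e : sop a (fun i => f i - g i) = fun i => sop a f i - sop a g i :=
        funext fun i => sop_sub _ _ _ _
      simp only [e, sop_sub, mul_sub, sum_sub_distrib]
      rw [h a b hab, sub_self]) hl
    simp only [mul_sub, sum_sub_distrib] at this
    exact sub_eq_zero.1 this
  have s1 := step _ _ (hdu X X hX hX) (hdu X Y hX hY) h1
  have s2 := step _ _ (hdu X Y hX hY) (hdu Y Y hY hY) h2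
  have key : ∀ Z : 𝒱.Obj, Z.dim = d → ∀ i : ℤ, ff C Z X i = ff C Z Y i := by
    intro Z hZ
    let V : Fin 3 → 𝒱.Obj := ![X, Y, Z]
    have hV : ∀ r, (V r).dim = d := by
      intro r
      fin_cases r
      · exact hX
      · exact hY
      · exact hZ
    refine halg d N (fun k => c (d + k) + c (d + (N - k))) (fun r s => ff C (V r) (V s))
      (fun k hk => ?_) hnz (fun r s => ff_comm _ _) (fun r s i => hdu _ _ (hV r) (hV s) i)
      (fun r s i hi => ff_top (hV r) (hV s) hi) (fun M ι _ x α β hαβ t => ?_) (fun l hl => ?_)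
    · rw [show N - (N - k) = k by omega, add_comm]
    · exact pos_family hpos hcel hasc hreg hfin hP (fun r => V (x r)) (fun r => hV _) α β hαβ t
    · have t1 := s1 l hl
      have t2 := s2 l hl
      change ∑ k ∈ range (N + 1), (c (d + k) + c (d + (N - k))) *
        (ff C X X ((d : ℤ) + k - l) + ff C Y Y ((d : ℤ) + k - l) -
          2 * ff C X Y ((d : ℤ) + k - l)) = 0
      have e : ∀ k : ℕ, (c (d + k) + c (d + (N - k))) *
          (ff C X X ((d : ℤ) + k - l) + ff C Y Y ((d : ℤ) + k - l) -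
            2 * ff C X Y ((d : ℤ) + k - l)) =
          (c (d + k) + c (d + (N - k))) * ff C X X ((d : ℤ) + k - l) +
            (c (d + k) + c (d + (N - k))) * ff C Y Y ((d : ℤ) + k - l) -
            2 * ((c (d + k) + c (d + (N - k))) * ff C X Y ((d : ℤ) + k - l)) := fun k => by ring
      rw [sum_congr rfl fun k _ => e k, sum_sub_distrib, sum_add_distrib, ← mul_sum, t1, ← t2]
      ring
  refine (core_num hcore hreg hfin (X := X) (Y := Y) (by rw [hX, hY])).2.1 ?_
  rw [hX, hY]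
  have r1 := key X hX d
  have r2 := key Y hY d
  rw [ff_comm Y X] at r2
  have r1' : Pool.Agent.P8H64.OO.rho C (X.prod X) d = Pool.Agent.P8H64.OO.rho C (X.prod Y) d := by
    exact Nat.cast_injective (R := ℤ) r1
  have r2' : Pool.Agent.P8H64.OO.rho C (X.prod Y) d = Pool.Agent.P8H64.OO.rho C (Y.prod Y) d := by
    exact Nat.cast_injective (R := ℤ) r2
  rw [r1', ← r2']
  ring

end main

end Pool.Agent.P8H64.AN
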