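import Pool.Agent.P8H64.AN.Defs

/-!
# All or nothing: real coefficients, leading terms
-/

set_option autoImplicit false

open Finset

namespace Pool.Agent.P8H64.AN

/-- The leading coefficients are equal. -/
lemma lead_eq {p p' q q' a b : ℝ} (S : ℕ → Prop) (hS : ∀ n, ∃ r, n ≤ r ∧ S r)
    (h : ∀ ε : ℝ, 0 < ε → ∃ B : ℝ, ∀ r : ℕ, S r →
      |(q + r * p) - (q' + r * p')| ≤ ε * (a + r * b) + B) : p = p' := by
  by_contra hne
  have h1 : 0 < |p - p'| := abs_pos.2 (sub_ne_zero.2 hne)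
  set δ := |p - p'| with hδ
  obtain ⟨B, hB⟩ := h (δ / (2 * (|b| + 1))) (by positivity)
  obtain ⟨n, hn⟩ := exists_nat_gt (2 * (δ * |a| + |B| + |q - q'|) / δ)
  obtain ⟨r, hr, hSr⟩ := hS n
  have h2 := hB r hSr
  have hr' : (n : ℝ) ≤ r := by exact_mod_cast hr
  have hr0 : (0 : ℝ) ≤ r := Nat.cast_nonneg r
  have h3 : (r : ℝ) * δ ≤ |(q + r * p) - (q' + r * p')| + |q - q'| := by
    have e : (r : ℝ) * (p - p') = ((q + r * p) - (q' + r * p')) - (q - q') := by ring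
    rw [hδ, ← abs_of_nonneg hr0, ← abs_mul, abs_of_nonneg hr0, e]
    exact abs_sub _ _
  have hb : (0 : ℝ) < 2 * (|b| + 1) := by positivity
  have h4 : δ / (2 * (|b| + 1)) * (a + r * b) ≤ δ * |a| + r * δ / 2 := by
    have h5 : δ / (2 * (|b| + 1)) * a ≤ δ * |a| := by
      rw [div_mul_eq_mul_div, div_le_iff₀ hb]
      have : δ * a ≤ δ * |a| := mul_le_mul_of_nonneg_left (le_abs_self a) h1.le
      have h6 : 0 ≤ δ * |a| := by positivity
      nlinarith [abs_nonneg b]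
    have h7 : δ / (2 * (|b| + 1)) * (r * b) ≤ r * δ / 2 := by
      rw [div_mul_eq_mul_div, div_le_iff₀ hb]
      have : r * δ * b ≤ r * δ * |b| := mul_le_mul_of_nonneg_left (le_abs_self b) (by positivity)
      have h6 : 0 ≤ r * δ := by positivity
      nlinarith
    rw [mul_add]
    exact add_le_add h5 h7
  have h8 : 2 * (δ * |a| + |B| + |q - q'|) < r * δ := by
    rw [div_lt_iff₀ h1] at hn
    exact hn.trans_le (mul_le_mul_of_nonneg_right hr' h1.le)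
  have h9 := le_abs_self B
  linarith

lemma deep_le {R : Type*} [AddCommMonoid R] {c : ℕ → R} {d D : ℕ}
    (hc : ∀ i, c i ≠ 0 → d ≤ i ∧ d + i ≤ D) {i : ℕ} (hi : i ≤ D) (h : c i + c (D - i) ≠ 0) :
    d ≤ i ∧ d + i ≤ D := by
  by_cases h1 : c i = 0
  · have h2 : c (D - i) ≠ 0 := by
      intro h2
      exact h (by rw [h1, h2, add_zero])
    have := hc _ h2
    omega
  · exact hc i h1

/-- Real coefficients can be replaced by integral ones. -/
lemma exists_int {D d : ℕ} {c : ℕ → ℝ} (hc : IsDeep c d D) (hnz : IsNontrivial c D) :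
    ∃ z : ℕ → ℤ, (∀ i, z i ≠ 0 → d ≤ i ∧ d + i ≤ D) ∧ (∃ i, i ≤ D ∧ z i + z (D - i) ≠ 0) ∧
      ∀ f g : ℕ → ℤ, ∑ i ∈ range (D + 1), c i * (f i : ℝ) = ∑ i ∈ range (D + 1), c i * (g i : ℝ) →
        ∑ i ∈ range (D + 1), z i * f i = ∑ i ∈ range (D + 1), z i * g i := by
  obtain ⟨i₀, hi₀, hne⟩ := hnz
  obtain ⟨ℓ, hℓ⟩ : ∃ ℓ : Module.Dual ℚ ℝ, ℓ (c i₀ + c (D - i₀)) ≠ 0 := by
    by_contra hcon
    push Not at hcon
    exact hne ((Module.forall_dual_apply_eq_zero_iff ℚ _).1 hcon)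
  obtain ⟨b, hb⟩ := IsLocalization.exist_integer_multiples_of_finset (nonZeroDivisors ℤ)
    ((range (D + 1)).image fun i => ℓ (c i))
  have hb0 : ((b : ℤ) : ℚ) ≠ 0 := by
    exact_mod_cast nonZeroDivisors.coe_ne_zero b
  have hz : ∀ i, ∃ z : ℤ, (i ≤ D → (z : ℚ) = ((b : ℤ) : ℚ) * ℓ (c i)) ∧ (D < i → z = 0) := by
    intro i
    by_cases hi : i ≤ D
    · obtain ⟨z, hz⟩ := hb (ℓ (c i)) (mem_image_of_mem _ (mem_range.2 (Nat.lt_succ_of_le hi)))
      refine ⟨z, fun _ => ?_, fun h => absurd hi (not_le.2 h)⟩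
      rw [← zsmul_eq_mul]
      exact hz
    · exact ⟨0, fun h => absurd h hi, fun _ => rfl⟩
  choose z hz1 hz2 using hz
  refine ⟨z, fun i hi => ?_, ⟨i₀, hi₀, fun h0 => hℓ ?_⟩, fun f g h => ?_⟩
  · have hi' : i ≤ D := by
      by_contra h
      exact hi (hz2 i (not_le.1 h))
    refine hc i fun h0 => hi ?_
    have := hz1 i hi'
    rw [h0, map_zero, mul_zero] at this
    exact_mod_cast this
  · have h1 := hz1 i₀ hi₀
    have h2 := hz1 (D - i₀) (Nat.sub_le _ _)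
    have h3 : ((z i₀ : ℤ) : ℚ) + z (D - i₀) = 0 := by exact_mod_cast h0
    rw [h1, h2, ← mul_add, ← map_add] at h3
    exact (mul_eq_zero.1 h3).resolve_left hb0
  · have key : ∀ f : ℕ → ℤ, ((∑ i ∈ range (D + 1), z i * f i : ℤ) : ℚ) =
        ((b : ℤ) : ℚ) * ℓ (∑ i ∈ range (D + 1), c i * (f i : ℝ)) := by
      intro f
      rw [map_sum, mul_sum]
      push_cast
      refine sum_congr rfl fun i hi => ?_
      have e : ℓ (c i * (f i : ℝ)) = (f i : ℚ) * ℓ (c i) := by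
        rw [mul_comm, ← zsmul_eq_mul, map_zsmul, zsmul_eq_mul]
      rw [hz1 i (Nat.lt_succ_iff.1 (mem_range.1 hi)), e]
      ring
    have := (key f).trans ((congrArg (fun x => ((b : ℤ) : ℚ) * ℓ x) h).trans (key g).symm)
    exact_mod_cast this

/-- The leading terms of the linear combinations for the products with surfaces. -/
lemma lead_comb {D : ℕ} {c : ℕ → ℝ} (c0 : c 0 = 0) (c1 : c (D + 2) = 0) (f g : ℤ → ℤ)
    (S : ℕ → Prop) (hS : ∀ n, ∃ r, n ≤ r ∧ S r)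
    (h : ∀ ε : ℝ, 0 < ε → ∃ B : ℝ, ∀ r : ℕ, S r →
      |∑ i ∈ range (D + 2 + 1), c i * (((f i + f (i - 2)) + r * f (i - 1) : ℤ) : ℝ) -
        ∑ i ∈ range (D + 2 + 1), c i * (((g i + g (i - 2)) + r * g (i - 1) : ℤ) : ℝ)| ≤
        ε * ∑ i ∈ range (D + 2 + 1), |(((f i + f (i - 2)) + r * f (i - 1) : ℤ) : ℝ)| + B) :
    ∑ i ∈ range (D + 1), c (i + 1) * (f i : ℝ) = ∑ i ∈ range (D + 1), c (i + 1) * (g i : ℝ) := by
  have hlead : ∀ f : ℤ → ℤ, ∑ i ∈ range (D + 2 + 1), c i * (f ((i : ℤ) - 1) : ℝ) =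
      ∑ i ∈ range (D + 1), c (i + 1) * (f i : ℝ) := by
    intro f
    rw [sum_range_succ, sum_range_succ', c0, c1, zero_mul, zero_mul, add_zero, add_zero]
    refine sum_congr rfl fun i _ => ?_
    congr 3
    push_cast
    ring
  have hsplit : ∀ (f : ℤ → ℤ) (r : ℕ),
      ∑ i ∈ range (D + 2 + 1), c i * (((f i + f (i - 2)) + r * f (i - 1) : ℤ) : ℝ) =
      ∑ i ∈ range (D + 2 + 1), c i * ((f i : ℝ) + f ((i : ℤ) - 2)) +
        r * ∑ i ∈ range (D + 2 + 1), c i * (f ((i : ℤ) - 1) : ℝ) := by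
    intro f r
    rw [mul_sum, ← sum_add_distrib]
    refine sum_congr rfl fun i _ => ?_
    push_cast
    ring
  rw [← hlead f, ← hlead g]
  refine lead_eq
    (q := ∑ i ∈ range (D + 2 + 1), c i * ((f i : ℝ) + f ((i : ℤ) - 2)))
    (q' := ∑ i ∈ range (D + 2 + 1), c i * ((g i : ℝ) + g ((i : ℤ) - 2)))
    (a := ∑ i ∈ range (D + 2 + 1), |(f i : ℝ) + f ((i : ℤ) - 2)|)
    (b := ∑ i ∈ range (D + 2 + 1), |(f ((i : ℤ) - 1) : ℝ)|) S hS (fun ε hε => ?_)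
  obtain ⟨B, hB⟩ := h ε hε
  refine ⟨B, fun r hr => ?_⟩
  have h3 := hB r hr
  rw [hsplit f, hsplit g] at h3
  refine h3.trans (add_le_add_left (mul_le_mul_of_nonneg_left ?_ hε.le) B)
  rw [mul_sum, ← sum_add_distrib]
  refine sum_le_sum fun i _ => ?_
  push_cast
  refine (abs_add_le _ _).trans ?_
  rw [abs_mul, abs_of_nonneg (Nat.cast_nonneg r : (0 : ℝ) ≤ r)]

end Pool.Agent.P8H64.AN
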