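import Pool.Agent.P8H64.AN.Form
import Pool.Agent.P8H64.AN.Real
import Pool.Agent.P8H64.AN.Alg
import Pool.Agent.P8H64.AC.Final

/-!
# All or nothing for linear combinations of ranks
-/

set_option autoImplicit false

open CategoryTheory AlgebraicGeometry Module Finset

universe u v w

namespace Pool.Agent.P8H64.AN

open Pool.Agent.H914 Pool.Agent.H914.VarClass Pool.Agent.H914.VarClass.Obj Pool.Agent.W492.BB
  Pool.Agent.W550.Corr Pool.Agent.TH133 Pool.Agent.TH829.Prime Pool.Agent.TH829.Kim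
  Pool.Agent.P8H64.OO Pool.Agent.P8H64.AC

variable {k : Type u} [Field k] {𝒱 : VarClass k} {C : TheoryData.{u, v, 0} 𝒱 ℚ}
  [hC : IsChowProj C]

section law

variable [hN : NZ C] {P : ℕ → 𝒱.Obj} (hpos : S_POS.{u + 1, v}) (hcel : S_CEL.{u, v})
  (hasc : S_ASC.{u, v})
  (hreg : IsRegular C) (hfin : IsFin C) (hP : Spaces C P)
  (halg : S_ALG) (hcore : S_CORE.{u + 1, v}) (hdual : S_DUAL.{u, v})
  {R : 𝒱.Obj → 𝒱.Obj → Prop} (hR : IsStable R)

include hpos hcel hasc hreg hfin hP halg hcore hdual hR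

/-- Integral linear combinations. -/
theorem numIso_of_int {D d : ℕ} {c : ℕ → ℤ} (hc : ∀ i, c i ≠ 0 → d ≤ i ∧ d + i ≤ D)
    (hnz : ∃ i, i ≤ D ∧ c i + c (D - i) ≠ 0)
    (h : ∀ Z W : 𝒱.Obj, R Z W → Z.dim = D →
      ∑ i ∈ range (D + 1), c i * (Pool.Agent.P8H64.OO.rho C Z i : ℤ) =
        ∑ i ∈ range (D + 1), c i * (Pool.Agent.P8H64.OO.rho C W i : ℤ))
    {X Y : 𝒱.Obj} (hXY : R X Y) (hX : X.dim ≤ d) : NumIso C X Y := by
  obtain ⟨i, hi, hne⟩ := hnz
  obtain ⟨hi1, hi2⟩ := deep_le hc hi hne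
  obtain ⟨e, he⟩ : ∃ e : ℕ, X.dim = e := ⟨_, rfl⟩
  have he' : Y.dim = e := by rw [← hR.dim_eq hXY, he]
  rw [he] at hX
  obtain ⟨N, rfl⟩ : ∃ N, D = 2 * e + N := ⟨D - 2 * e, by omega⟩
  refine numIso_of_comb hpos hcel hasc hreg hfin hP halg hcore hdual he he' c (N := N)
    (fun j hj => ?_) ⟨i - e, by omega, ?_⟩ (fun a b hab => ?_) fun a b hab => ?_
  · have := hc j hj
    omega
  · rw [show e + (i - e) = i by omega, show e + (N - (i - e)) = 2 * e + N - i by omega]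
    exact hne
  · simp only [← rho_two hcel hfin hP]
    exact h _ _ (hR.prod (hR.prod (hR.prod (hR.equivalence.refl X) hXY)
      (hR.equivalence.refl (P a))) (hR.equivalence.refl (P b))) (by
        simp only [dim_prod, (hP.proj _).1, he]
        omega)
  · simp only [← rho_two hcel hfin hP]
    exact h _ _ (hR.prod (hR.prod (hR.prod hXY (hR.equivalence.refl Y))
      (hR.equivalence.refl (P a))) (hR.equivalence.refl (P b))) (by
        simp only [dim_prod, (hP.proj _).1, he, he']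
        omega)

/-- Real linear combinations. -/
theorem numIso_of_real {D d : ℕ} {c : ℕ → ℝ} (hc : IsDeep c d D) (hnz : IsNontrivial c D)
    (h : ∀ Z W : 𝒱.Obj, R Z W → Z.dim = D →
      ∑ i ∈ range (D + 1), c i * (((Pool.Agent.P8H64.OO.rho C Z i : ℕ) : ℤ) : ℝ) =
        ∑ i ∈ range (D + 1), c i * (((Pool.Agent.P8H64.OO.rho C W i : ℕ) : ℤ) : ℝ))
    {X Y : 𝒱.Obj} (hXY : R X Y) (hX : X.dim ≤ d) : NumIso C X Y := by
  obtain ⟨z, hz, hzn, hz'⟩ := exists_int hc hnz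
  exact numIso_of_int hpos hcel hasc hreg hfin hP halg hcore hdual hR hz hzn
    (fun Z W hZW hZ => hz' _ _ (h Z W hZW hZ)) hXY hX

/-- Almost invariant real linear combinations. -/
theorem numIso_of_almost' (hS : ∀ r : ℕ, ∃ s, r ≤ s ∧ ∃ S : 𝒱.Obj, IsSplitSurface C S s)
    {D d : ℕ} {c : ℕ → ℝ} (hc : IsDeep c d D) (hnz : IsNontrivial c D)
    (h : IsAlmostInvariant R (fun Z i => (rk C Z i : ℤ)) c D)
    {X Y : 𝒱.Obj} (hXY : R X Y) (hX : X.dim < d) : NumIso C X Y := by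
  obtain ⟨i₀, hi₀, hne⟩ := hnz
  obtain ⟨hi1, hi2⟩ := deep_le hc hi₀ hne
  obtain ⟨d, rfl⟩ : ∃ d', d = d' + 1 := ⟨d - 1, by omega⟩
  obtain ⟨D, rfl⟩ : ∃ D', D = D' + 2 := ⟨D - 2, by omega⟩
  have c0 : c 0 = 0 := by
    by_contra h0
    have := hc 0 h0
    omega
  have c1 : c (D + 2) = 0 := by
    by_contra h0
    have := hc _ h0
    omega
  refine numIso_of_real hpos hcel hasc hreg hfin hP halg hcore hdual hR (D := D) (d := d)
    (c := fun i => c (i + 1)) (fun i hi => ?_) ⟨i₀ - 1, by omega, ?_⟩ (fun Z W hZW hZ => ?_)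
    hXY (Nat.lt_succ_iff.1 hX)
  · have := hc _ hi
    omega
  · beta_reduce
    rw [show i₀ - 1 + 1 = i₀ by omega, show D - (i₀ - 1) + 1 = D + 2 - i₀ by omega]
    exact hne
  · refine lead_comb c0 c1 (fun j => (Pool.Agent.P8H64.OO.rho C Z j : ℤ))
      (fun j => (Pool.Agent.P8H64.OO.rho C W j : ℤ))
      (fun s => ∃ S : 𝒱.Obj, IsSplitSurface C S s) hS (fun ε hε => ?_)
    obtain ⟨B, hB⟩ := h ε hε
    refine ⟨B, fun r hr => ?_⟩
    obtain ⟨S, hS⟩ := hr
    have h3 := hB _ _ (hR.prod hZW (hR.equivalence.refl S)) (by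
      rw [dim_prod, hZ, hS.1])
    unfold comb at h3
    simp only [rk_eq hfin, rho_split hcel hfin _ S r hS] at h3
    exact h3

end law

section final

variable {K : Type w} [Field K] [CharZero K]

/-- The all-or-nothing law. -/
theorem law (H : WeilTheoryData.{u, v, w} C K) [hH : IsWeilComm H]
    (hP : ∀ N : ℕ, ∃ P : 𝒱.Obj, IsProjectiveSpace C P N) {R : 𝒱.Obj → 𝒱.Obj → Prop}
    (hR : IsStable R) :
    (∀ (D d : ℕ) (c : ℕ → ℝ), IsDeep c d D → IsNontrivial c D →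
      IsInvariant R (fun Z i => (rk C Z i : ℤ)) c D →
      ∀ X Y : 𝒱.Obj, R X Y → X.dim ≤ d → NumIsom C X Y ∧
        (IsKimuraFinite C (ratFam C) X → IsKimuraFinite C (ratFam C) Y → ChowIso C X Y)) ∧
    ((∀ r : ℕ, ∃ s, r ≤ s ∧ ∃ S : 𝒱.Obj, IsSplitSurface C S s) →
      (∀ (D d : ℕ) (c : ℕ → ℝ), IsDeep c d D → IsNontrivial c D →
        IsAlmostInvariant R (fun Z i => (rk C Z i : ℤ)) c D →
        ∀ X Y : 𝒱.Obj, R X Y → X.dim < d → NumIsom C X Y ∧
          (IsKimuraFinite C (ratFam C) X → IsKimuraFinite C (ratFam C) Y → ChowIso C X Y)) ∧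
      ((∀ X Y : 𝒱.Obj, R X Y → NumIsom C X Y) ↔
        ∀ d : ℕ, ∃ (D : ℕ) (c : ℕ → ℝ), IsDeep c d D ∧ IsNontrivial c D ∧
          IsAlmostInvariant R (fun Z i => (rk C Z i : ℤ)) c D)) := by
  have := nz H
  have hcore : S_CORE.{u + 1, v} := Pool.Agent.P8H29.OO.core_main
  have hreg : IsRegular C := isRegular H
  have hfin : IsFin C := isFin H
  choose P hP using hP
  have hPs : Spaces C P := ⟨hP⟩
  have conc : ∀ X Y : 𝒱.Obj, R X Y → NumIso C X Y → NumIsom C X Y ∧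
      (IsKimuraFinite C (ratFam C) X → IsKimuraFinite C (ratFam C) Y → ChowIso C X Y) :=
    fun X Y hXY h => ⟨(numIsom_iff (hR.dim_eq hXY)).2 h, fun hX hY =>
      lift k 𝒱 C (nz H).ne X Y (hR.dim_eq hXY) hX hY h⟩
  have halm : (∀ r : ℕ, ∃ s, r ≤ s ∧ ∃ S : 𝒱.Obj, IsSplitSurface C S s) →
      ∀ (D d : ℕ) (c : ℕ → ℝ), IsDeep c d D → IsNontrivial c D →
        IsAlmostInvariant R (fun Z i => (rk C Z i : ℤ)) c D →
        ∀ X Y : 𝒱.Obj, R X Y → X.dim < d → NumIsom C X Y ∧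
          (IsKimuraFinite C (ratFam C) X → IsKimuraFinite C (ratFam C) Y → ChowIso C X Y) :=
    fun hS D d c hc hnz h X Y hXY h1 => conc X Y hXY
      (numIso_of_almost' pos cel asc hreg hfin hPs alg hcore dual hR hS hc hnz h hXY h1)
  refine ⟨fun D d c hc hnz h X Y hXY h1 => conc X Y hXY
    (numIso_of_real pos cel asc hreg hfin hPs alg hcore dual hR hc hnz (fun Z W hZW hZ => ?_)
      hXY h1), fun hS => ⟨halm hS, ?_⟩⟩
  · have := h Z W hZW hZ
    unfold comb at this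
    simpa only [rk_eq hfin] using this
  · refine ⟨fun h d => ⟨2 * d, fun i => if i = d then 1 else 0, fun i hi => ?_,
      ⟨d, by omega, ?_⟩, fun ε hε => ⟨0, fun Z W hZW hZ => ?_⟩⟩, fun h X Y hXY => ?_⟩
    · have : i = d := by
        by_contra h
        exact hi (if_neg h)
      omega
    · rw [show 2 * d - d = d by omega]
      beta_reduce
      rw [if_pos rfl]
      norm_num
    · have h1 := (tfae_rel hR hcore hreg hfin).out 0 1
      have h2 := h1.1 (fun X Y hXY => (numIsom_iff (hR.dim_eq hXY)).1 (h X Y hXY)) Z W hZW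
      have h3 : comb (fun Z i => (rk C Z i : ℤ)) (fun i => if i = d then 1 else 0) (2 * d) Z =
          comb (fun Z i => (rk C Z i : ℤ)) (fun i => if i = d then 1 else 0) (2 * d) W := by
        unfold comb
        simp only [rk_eq hfin, h2]
      rw [h3, sub_self, abs_zero, add_zero]
      exact mul_nonneg hε.le (sum_nonneg fun i _ => abs_nonneg _)
    · obtain ⟨D, c, hc, hnz, h1⟩ := h (X.dim + 1)
      exact (halm hS D _ c hc hnz h1 X Y hXY (Nat.lt_succ_self _)).1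

end final

end Pool.Agent.P8H64.AN
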