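import Pool.Agent.P8H64.AN.Stm

/-!
# Project AN (helper64), package ZALG (written by helper88)
-/

set_option autoImplicit false

open Finset

universe w

namespace Pool.Agent.P8H64.AN

section
variable {K : Type w} [Field K] {q : K}

theorem fin_scale (hq : q ≠ 0) (x : K →₀ ℤ) (k : ℤ) :
    (Function.support fun α => x (q ^ k * α)).Finite := by
  have h1 : (Function.support fun α => x (q ^ k * α)) = (fun α => q ^ k * α) ⁻¹' (x.support : Set K) := by
    ext α
    simp
  rw [h1]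
  exact Set.Finite.preimage (fun a _ b _ h => mul_left_cancel₀ (zpow_ne_zero k hq) h)
    x.support.finite_toSet

theorem fin_scale_mul (hq : q ≠ 0) (x : K →₀ ℤ) (k l : ℤ) :
    (Function.support fun α => x (q ^ k * α) * x (q ^ l * α)).Finite :=
  (fin_scale hq x k).subset fun α hα h => hα (by
    have : x (q ^ k * α) = 0 := h
    simp [this])

theorem pair_scale (hq : q ≠ 0) (x : K →₀ ℤ) (k l : ℤ) :
    ∑ᶠ α, x (q ^ k * α) * x (q ^ l * α) = x.sum fun α a => a * x (q ^ (l - k) * α) := by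
  have h1 : x.sum (fun α a => a * x (q ^ (l - k) * α)) = ∑ᶠ β, x β * x (q ^ (l - k) * β) := by
    rw [Finsupp.sum, finsum_eq_sum_of_support_subset]
    intro β hβ
    simp only [Function.mem_support, ne_eq, mul_eq_zero, not_or] at hβ
    simpa using hβ.1
  rw [h1, ← finsum_comp_equiv (Equiv.mulLeft₀ (q ^ k) (zpow_ne_zero k hq))
    (f := fun β => x β * x (q ^ (l - k) * β))]
  apply finsum_congr
  intro α
  simp only [Equiv.mulLeft₀_apply]
  rw [← mul_assoc, ← zpow_add₀ hq, sub_add_cancel]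

/-- `y(α) = ∑ e(k) x(q ^ k α)` -/
noncomputable def yy (q : K) (N : ℕ) (e : ℕ → ℤ) (x : K →₀ ℤ) (α : K) : ℤ :=
  ∑ k ∈ range (N + 1), e k * x (q ^ (k : ℤ) * α)

theorem yy_fin (hq : q ≠ 0) (N : ℕ) (e : ℕ → ℤ) (x : K →₀ ℤ) :
    (Function.support (yy q N e x)).Finite := by
  have h1 : (⋃ k ∈ (range (N + 1) : Finset ℕ),
      Function.support fun α => x (q ^ (k : ℤ) * α)).Finite :=
    Set.Finite.biUnion (Finset.finite_toSet _) fun k _ => fin_scale hq x k
  refine h1.subset fun α hα => ?_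
  by_contra h2
  simp only [Set.mem_iUnion, Function.mem_support, ne_eq, not_exists, not_not] at h2
  apply hα
  unfold yy
  exact sum_eq_zero fun k hk => by rw [h2 k hk, mul_zero]

theorem yy_sq (hq : q ≠ 0) (N : ℕ) (e : ℕ → ℤ) (x : K →₀ ℤ)
    (h : ∀ l : ℕ, l ≤ N → ∑ k ∈ range (N + 1), e k *
      (x.sum fun α a => a * x (q ^ ((l : ℤ) - k) * α)) = 0) :
    ∑ᶠ α, yy q N e x α ^ 2 = 0 := by
  have h1 : ∀ α, yy q N e x α ^ 2 = ∑ l ∈ range (N + 1), ∑ k ∈ range (N + 1),
      e l * (e k * (x (q ^ (k : ℤ) * α) * x (q ^ (l : ℤ) * α))) := by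
    intro α
    unfold yy
    rw [sq, sum_mul_sum, sum_comm]
    refine sum_congr rfl fun l _ => sum_congr rfl fun k _ => ?_
    ring
  have hf : ∀ l k : ℕ, (Function.support fun α =>
      e l * (e k * (x (q ^ (k : ℤ) * α) * x (q ^ (l : ℤ) * α)))).Finite := by
    intro l k
    refine (fin_scale_mul hq x k l).subset fun α hα h => hα ?_
    have h' : x (q ^ (k : ℤ) * α) * x (q ^ (l : ℤ) * α) = 0 := h
    show e l * (e k * (x (q ^ (k : ℤ) * α) * x (q ^ (l : ℤ) * α))) = 0
    rw [h']; ring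
  have hf2 : ∀ l : ℕ, (Function.support fun α => ∑ k ∈ range (N + 1),
      e l * (e k * (x (q ^ (k : ℤ) * α) * x (q ^ (l : ℤ) * α)))).Finite := by
    intro l
    have h3 : (⋃ k ∈ (range (N + 1) : Finset ℕ), Function.support fun α =>
        e l * (e k * (x (q ^ (k : ℤ) * α) * x (q ^ (l : ℤ) * α)))).Finite :=
      Set.Finite.biUnion (Finset.finite_toSet _) fun k _ => hf l k
    refine h3.subset fun α hα => ?_
    by_contra h2
    simp only [Set.mem_iUnion, Function.mem_support, ne_eq, not_exists, not_not] at h2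
    exact hα (sum_eq_zero fun k hk => h2 k hk)
  calc ∑ᶠ α, yy q N e x α ^ 2
      = ∑ᶠ α, ∑ l ∈ range (N + 1), ∑ k ∈ range (N + 1),
          e l * (e k * (x (q ^ (k : ℤ) * α) * x (q ^ (l : ℤ) * α))) := finsum_congr h1
    _ = ∑ l ∈ range (N + 1), ∑ᶠ α, ∑ k ∈ range (N + 1),
          e l * (e k * (x (q ^ (k : ℤ) * α) * x (q ^ (l : ℤ) * α))) :=
        finsum_sum_comm _ _ fun l _ => hf2 l
    _ = ∑ l ∈ range (N + 1), ∑ k ∈ range (N + 1), ∑ᶠ α,
          e l * (e k * (x (q ^ (k : ℤ) * α) * x (q ^ (l : ℤ) * α))) :=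
        sum_congr rfl fun l _ => finsum_sum_comm _ _ fun k _ => hf l k
    _ = ∑ l ∈ range (N + 1), e l * ∑ k ∈ range (N + 1),
          e k * (x.sum fun α a => a * x (q ^ ((l : ℤ) - k) * α)) := by
        refine sum_congr rfl fun l _ => ?_
        rw [mul_sum]
        refine sum_congr rfl fun k _ => ?_
        rw [← pair_scale hq x k l]
        rw [← mul_finsum, ← mul_finsum]
    _ = 0 := sum_eq_zero fun l hl => by
        rw [h l (Nat.lt_succ_iff.1 (mem_range.1 hl)), mul_zero]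

theorem yy_zero (hq : q ≠ 0) (N : ℕ) (e : ℕ → ℤ) (x : K →₀ ℤ)
    (h : ∀ l : ℕ, l ≤ N → ∑ k ∈ range (N + 1), e k *
      (x.sum fun α a => a * x (q ^ ((l : ℤ) - k) * α)) = 0) (α : K) : yy q N e x α = 0 := by
  have h1 := yy_sq hq N e x h
  have h2 := yy_fin hq N e x
  have h3 : Function.support (fun α => yy q N e x α ^ 2) ⊆ (h2.toFinset : Set K) := by
    intro β hβ
    simp only [Function.mem_support, ne_eq] at hβ
    rw [Set.Finite.coe_toFinset]
    exact fun h4 => hβ (by rw [h4]; rfl)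
  rw [finsum_eq_sum_of_support_subset _ h3, sum_eq_zero_iff_of_nonneg fun i _ => sq_nonneg _] at h1
  by_contra h4
  exact h4 (by simpa using h1 α (by simpa using h4))

end

theorem zalg : S_ZALG.{w} := by
  intro K _ q hq hinf N e x hx0 he h
  by_contra hx
  obtain ⟨α, hα⟩ := Finsupp.ne_iff.1 hx
  rw [Finsupp.zero_apply] at hα
  have hα0 : α ≠ 0 := fun h0 => hα (by rw [h0, hx0])
  classical
  have hinj : Function.Injective fun n : ℤ => q ^ n * α := by
    intro n m hnm
    have h1 : q ^ n = q ^ m := mul_right_cancel₀ hα0 hnm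
    by_contra hne
    apply hinf (n - m) (sub_ne_zero.2 hne)
    rw [zpow_sub₀ hq, h1, div_self (zpow_ne_zero m hq)]
  have hfin : {n : ℤ | x (q ^ n * α) ≠ 0}.Finite := by
    have : {n : ℤ | x (q ^ n * α) ≠ 0} = (fun n : ℤ => q ^ n * α) ⁻¹' (x.support : Set K) := by
      ext n; simp
    rw [this]
    exact Set.Finite.preimage hinj.injOn x.support.finite_toSet
  have hne : hfin.toFinset.Nonempty := ⟨0, by simpa using hα⟩
  obtain ⟨n, hn, hmax⟩ : ∃ n ∈ hfin.toFinset, ∀ m ∈ hfin.toFinset, m ≤ n :=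
    ⟨hfin.toFinset.max' hne, max'_mem _ _, fun m hm => le_max' _ _ hm⟩
  have hn' : x (q ^ n * α) ≠ 0 := by simpa using hn
  have hex : ∃ k, e k ≠ 0 := by
    obtain ⟨k, _, hk⟩ := he
    exact ⟨k, hk⟩
  have hk0 := Nat.find_spec hex
  have hkmin := fun m => @Nat.find_min _ _ hex m
  set k₀ := Nat.find hex with hk₀
  have hk0N : k₀ ≤ N := by
    obtain ⟨k, hk, hk'⟩ := he
    exact (Nat.find_min' hex hk').trans hk
  have h1 := yy_zero hq N e x h (q ^ (n - k₀) * α)
  unfold yy at h1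
  rw [sum_eq_single k₀] at h1
  · rw [← mul_assoc, ← zpow_add₀ hq, add_sub_cancel] at h1
    exact (mul_ne_zero hk0 hn') h1
  · intro k _ hk
    rcases lt_or_gt_of_ne hk with hlt | hgt
    · have := hkmin k hlt
      simp only [ne_eq, not_not] at this
      rw [this, zero_mul]
    · have h2 : x (q ^ ((k : ℤ) + (n - k₀)) * α) = 0 := by
        by_contra h3
        have h4 := hmax ((k : ℤ) + (n - k₀)) (by simpa using h3)
        have h5 : (k₀ : ℤ) < k := by exact_mod_cast hgt
        linarith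
      rw [← mul_assoc, ← zpow_add₀ hq, h2, mul_zero]
  · intro h2
    exact absurd (mem_range.2 (Nat.lt_succ_of_le hk0N)) h2

end Pool.Agent.P8H64.AN
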